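import Pool.Agent.Y675.LN.Stm

/-!
# Project LN, task FIBP: at most three points on each line modulo a prime power
-/

set_option autoImplicit false

namespace Pool.Agent.Y514.LN

open Pool.Agent.Y675.LN Polynomial

theorem hred3' : (3 : ZMod 3) = 0 := by decide

theorem hcube' : ∀ z : ZMod 3, z ^ 3 = z := by decide

section

variable {p n : ℕ}

/-- reduction -/
noncomputable def red (hn : 1 ≤ n) : ZMod (p ^ n) →+* ZMod p :=
  ZMod.castHom (dvd_pow_self p (by omega)) (ZMod p)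

theorem isUnit_iff_red [Fact p.Prime] (hn : 1 ≤ n) (x : ZMod (p ^ n)) :
    IsUnit x ↔ red hn x ≠ 0 := by
  have hp : p.Prime := Fact.out
  have : NeZero (p ^ n) := ⟨pow_ne_zero _ hp.ne_zero⟩
  obtain ⟨m, rfl⟩ := ZMod.natCast_zmod_surjective x
  rw [ZMod.isUnit_iff_coprime, map_natCast, Ne, ZMod.natCast_eq_zero_iff,
    Nat.coprime_pow_right_iff (by omega), Nat.coprime_comm, hp.coprime_iff_not_dvd]

theorem card_le {R : Type*} [Fact p.Prime] (Z : Set R) (f : R → ZMod p) (c3 c2 c1 c0 : ZMod p)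
    (h : c3 ≠ 0 ∨ c2 ≠ 0 ∨ c1 ≠ 0)
    (hroot : ∀ x ∈ Z, c3 * f x ^ 3 + c2 * f x ^ 2 + c1 * f x + c0 = 0) (hinj : Set.InjOn f Z) :
    Z.ncard ≤ 3 := by
  classical
  set P : (ZMod p)[X] := C c3 * X ^ 3 + C c2 * X ^ 2 + C c1 * X + C c0 with hP
  have hP0 : P ≠ 0 := by
    intro h0
    have e3 : P.coeff 3 = c3 := by rw [hP]; simp [coeff_X, coeff_C]
    have e2 : P.coeff 2 = c2 := by rw [hP]; simp [coeff_X, coeff_C]
    have e1 : P.coeff 1 = c1 := by rw [hP]; simp [coeff_X, coeff_C]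
    rw [h0, coeff_zero] at e3 e2 e1
    rcases h with h | h | h
    · exact h e3.symm
    · exact h e2.symm
    · exact h e1.symm
  have h1 : f '' Z ⊆ (↑P.roots.toFinset : Set (ZMod p)) := by
    rintro _ ⟨x, hx, rfl⟩
    rw [Finset.mem_coe, Multiset.mem_toFinset, mem_roots hP0, IsRoot.def, hP]
    simpa using hroot x hx
  calc Z.ncard = (f '' Z).ncard := hinj.ncard_image.symm
    _ ≤ (↑P.roots.toFinset : Set (ZMod p)).ncard := Set.ncard_le_ncard h1 (Finset.finite_toSet _)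
    _ = P.roots.toFinset.card := Set.ncard_coe_finset _
    _ ≤ P.roots.card := Multiset.toFinset_card_le _
    _ ≤ P.natDegree := card_roots' _
    _ ≤ 3 := natDegree_cubic_le

/-- the facts about a point of `S` after reduction -/
theorem facts [Fact p.Prime] (hn : 1 ≤ n) {k A : ℕ} (hA : ¬ p ∣ A) {x : ZMod (p ^ n) × ZMod (p ^ n)}
    (hx : x ∈ S k A (p ^ n)) :
    red hn x.1 * red hn x.2 * (red hn x.1 ^ 2 - (3 * (k : ZMod p)) ^ 2 * red hn x.2 ^ 2) = A ∧
    (A : ZMod p) ≠ 0 ∧ red hn x.1 ≠ 0 ∧ red hn x.2 ≠ 0 ∧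
    red hn x.1 ^ 2 - 27 * (k : ZMod p) ^ 2 * red hn x.2 ^ 2 ≠ 0 ∧
    red hn x.1 ^ 2 - 3 * (k : ZMod p) ^ 2 * red hn x.2 ^ 2 ≠ 0 ∧
    red hn x.1 ^ 2 + 12 * (k : ZMod p) * red hn x.1 * red hn x.2 +
      9 * (k : ZMod p) ^ 2 * red hn x.2 ^ 2 ≠ 0 ∧
    red hn x.1 ^ 2 - 12 * (k : ZMod p) * red hn x.1 * red hn x.2 +
      9 * (k : ZMod p) ^ 2 * red hn x.2 ^ 2 ≠ 0 := by
  obtain ⟨h1, h2⟩ := hx
  rw [isUnit_iff_red hn] at h2
  have h1' := congrArg (red hn) h1
  unfold F at h1'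
  unfold E at h2
  simp only [map_mul, map_sub, map_add, map_pow, map_natCast, map_ofNat] at h1' h2
  have hA' : (A : ZMod p) ≠ 0 := by rwa [Ne, ZMod.natCast_eq_zero_iff]
  simp only [ne_eq, mul_eq_zero, not_or] at h2
  exact ⟨h1', hA', h2.1.1.1.1.1, h2.1.1.1.1.2, h2.1.1.1.2, h2.1.1.2, h2.1.2, h2.2⟩

theorem eq_of_unit_mul {R : Type*} [CommRing R] {u d : R} (hu : IsUnit u) (h : u * d = 0) :
    d = 0 := by
  have := hu.mul_left_cancel (b := d) (c := 0) (by rw [h, mul_zero])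
  exact this

theorem case1 [Fact p.Prime] (hn : 1 ≤ n) {k A : ℕ} (hA : ¬ p ∣ A) (w : ZMod (p ^ n)) :
    {x ∈ S k A (p ^ n) | x.1 = w}.ncard ≤ 3 := by
  by_cases hw : red hn w = 0
  · have : {x ∈ S k A (p ^ n) | x.1 = w} = ∅ := by
      rw [Set.eq_empty_iff_forall_notMem]
      rintro x ⟨hx, rfl⟩
      exact (facts hn hA hx).2.2.1 hw
    rw [this, Set.ncard_empty]
    omega
  apply card_le _ (fun x => red hn x.2) (-9 * (k : ZMod p) ^ 2 * red hn w) 0 (red hn w ^ 3)
    (-(A : ZMod p)) (Or.inr (Or.inr (pow_ne_zero _ hw)))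
  · rintro x ⟨hx, rfl⟩
    have h1 := (facts hn hA hx).1
    linear_combination h1
  · rintro x ⟨hx, hxw⟩ y ⟨hy, hyw⟩ hxy
    simp only at hxy
    have hf := facts hn hA hx
    have e1 : F (k : ZMod (p ^ n)) x.1 x.2 = F (k : ZMod (p ^ n)) y.1 y.2 := hx.1.trans hy.1.symm
    unfold F at e1
    rw [hxw, hyw] at e1
    have hu : IsUnit (w * (w ^ 2 - 9 * (k : ZMod (p ^ n)) ^ 2 *
        (x.2 ^ 2 + x.2 * y.2 + y.2 ^ 2))) := by
      rw [isUnit_iff_red hn]
      simp only [map_mul, map_sub, map_add, map_pow, map_natCast, map_ofNat]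
      apply mul_ne_zero hw
      rw [← hxy, ← hxw]
      intro h0
      apply hf.2.2.2.2.1
      linear_combination h0
    have h3 := eq_of_unit_mul (d := x.2 - y.2) hu (by linear_combination e1)
    exact Prod.ext (hxw.trans hyw.symm) (sub_eq_zero.1 h3)

theorem case3 [Fact p.Prime] (hn : 1 ≤ n) {k A : ℕ} (hA : ¬ p ∣ A) (w : ZMod (p ^ n)) :
    {x ∈ S k A (p ^ n) | x.1 - 3 * (k : ZMod (p ^ n)) * x.2 = w}.ncard ≤ 3 := by
  by_cases hw : red hn w = 0
  · have : {x ∈ S k A (p ^ n) | x.1 - 3 * (k : ZMod (p ^ n)) * x.2 = w} = ∅ := by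
      rw [Set.eq_empty_iff_forall_notMem]
      rintro x ⟨hx, rfl⟩
      have hf := facts hn hA hx
      apply hf.2.1
      rw [← hf.1]
      simp only [map_mul, map_sub, map_natCast, map_ofNat] at hw
      linear_combination (red hn x.1 * red hn x.2 * (red hn x.1 + 3 * k * red hn x.2)) * hw
    rw [this, Set.ncard_empty]
    omega
  apply card_le _ (fun x => red hn x.2) (18 * (k : ZMod p) ^ 2 * red hn w)
    (9 * (k : ZMod p) * red hn w ^ 2) (red hn w ^ 3)
    (-(A : ZMod p)) (Or.inr (Or.inr (pow_ne_zero _ hw)))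
  · rintro x ⟨hx, rfl⟩
    have h1 := (facts hn hA hx).1
    simp only [map_mul, map_sub, map_natCast, map_ofNat]
    linear_combination h1
  · rintro x ⟨hx, hxw⟩ y ⟨hy, hyw⟩ hxy
    simp only at hxy
    have hf := facts hn hA hx
    have e1 : F (k : ZMod (p ^ n)) x.1 x.2 = F (k : ZMod (p ^ n)) y.1 y.2 := hx.1.trans hy.1.symm
    unfold F at e1
    have hx1 : x.1 = w + 3 * (k : ZMod (p ^ n)) * x.2 := by rw [← hxw]; ring
    have hy1 : y.1 = w + 3 * (k : ZMod (p ^ n)) * y.2 := by rw [← hyw]; ring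
    have hu : IsUnit (w * (w ^ 2 + 9 * (k : ZMod (p ^ n)) * w * (x.2 + y.2) +
        18 * (k : ZMod (p ^ n)) ^ 2 * (x.2 ^ 2 + x.2 * y.2 + y.2 ^ 2))) := by
      rw [isUnit_iff_red hn]
      simp only [map_mul, map_add, map_pow, map_natCast, map_ofNat]
      apply mul_ne_zero hw
      rw [← hxy, ← hxw]
      intro h0
      apply hf.2.2.2.2.2.2.1
      simp only [map_mul, map_sub, map_natCast, map_ofNat] at h0
      linear_combination h0
    have h3 := eq_of_unit_mul (d := x.2 - y.2) hu (by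
      rw [hx1, hy1] at e1
      linear_combination e1)
    have h4 := sub_eq_zero.1 h3
    exact Prod.ext (by rw [hx1, hy1, h4]) h4

theorem case4 [Fact p.Prime] (hn : 1 ≤ n) {k A : ℕ} (hA : ¬ p ∣ A) (w : ZMod (p ^ n)) :
    {x ∈ S k A (p ^ n) | x.1 + 3 * (k : ZMod (p ^ n)) * x.2 = w}.ncard ≤ 3 := by
  by_cases hw : red hn w = 0
  · have : {x ∈ S k A (p ^ n) | x.1 + 3 * (k : ZMod (p ^ n)) * x.2 = w} = ∅ := by
      rw [Set.eq_empty_iff_forall_notMem]
      rintro x ⟨hx, rfl⟩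
      have hf := facts hn hA hx
      apply hf.2.1
      rw [← hf.1]
      simp only [map_mul, map_add, map_natCast, map_ofNat] at hw
      linear_combination (red hn x.1 * red hn x.2 * (red hn x.1 - 3 * k * red hn x.2)) * hw
    rw [this, Set.ncard_empty]
    omega
  apply card_le _ (fun x => red hn x.2) (18 * (k : ZMod p) ^ 2 * red hn w)
    (-9 * (k : ZMod p) * red hn w ^ 2) (red hn w ^ 3)
    (-(A : ZMod p)) (Or.inr (Or.inr (pow_ne_zero _ hw)))
  · rintro x ⟨hx, rfl⟩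
    have h1 := (facts hn hA hx).1
    simp only [map_mul, map_add, map_natCast, map_ofNat]
    linear_combination h1
  · rintro x ⟨hx, hxw⟩ y ⟨hy, hyw⟩ hxy
    simp only at hxy
    have hf := facts hn hA hx
    have e1 : F (k : ZMod (p ^ n)) x.1 x.2 = F (k : ZMod (p ^ n)) y.1 y.2 := hx.1.trans hy.1.symm
    unfold F at e1
    have hx1 : x.1 = w - 3 * (k : ZMod (p ^ n)) * x.2 := by rw [← hxw]; ring
    have hy1 : y.1 = w - 3 * (k : ZMod (p ^ n)) * y.2 := by rw [← hyw]; ring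
    have hu : IsUnit (w * (w ^ 2 - 9 * (k : ZMod (p ^ n)) * w * (x.2 + y.2) +
        18 * (k : ZMod (p ^ n)) ^ 2 * (x.2 ^ 2 + x.2 * y.2 + y.2 ^ 2))) := by
      rw [isUnit_iff_red hn]
      simp only [map_mul, map_add, map_sub, map_pow, map_natCast, map_ofNat]
      apply mul_ne_zero hw
      rw [← hxy, ← hxw]
      intro h0
      apply hf.2.2.2.2.2.2.2
      simp only [map_mul, map_add, map_natCast, map_ofNat] at h0
      linear_combination h0
    have h3 := eq_of_unit_mul (d := x.2 - y.2) hu (by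
      rw [hx1, hy1] at e1
      linear_combination e1)
    have h4 := sub_eq_zero.1 h3
    exact Prod.ext (by rw [hx1, hy1, h4]) h4

/-- the solutions of `3 u = 0` modulo `3 ^ n` -/
theorem three_tors (hn : 1 ≤ n) : {u : ZMod (3 ^ n) | 3 * u = 0}.ncard ≤ 3 := by
  have h3 : NeZero (3 ^ n) := ⟨by positivity⟩
  obtain ⟨m, rfl⟩ : ∃ m, n = m + 1 := ⟨n - 1, by omega⟩
  have hsub : {u : ZMod (3 ^ (m + 1)) | 3 * u = 0} ⊆
      (fun i : ℕ => ((3 ^ m * i : ℕ) : ZMod (3 ^ (m + 1)))) '' (↑(Finset.range 3) : Set ℕ) := by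
    intro u hu
    have hu' : 3 * u = 0 := hu
    obtain ⟨v, hv, rfl⟩ : ∃ v : ℕ, v < 3 ^ (m + 1) ∧ (v : ZMod (3 ^ (m + 1))) = u :=
      ⟨u.val, ZMod.val_lt u, ZMod.natCast_zmod_val u⟩
    have h1 : ((3 * v : ℕ) : ZMod (3 ^ (m + 1))) = 0 := by push_cast; exact hu'
    rw [ZMod.natCast_eq_zero_iff, pow_succ, mul_comm (3 ^ m) 3] at h1
    have h2 : 3 ^ m ∣ v := Nat.dvd_of_mul_dvd_mul_left (by norm_num) h1
    obtain ⟨i, rfl⟩ := h2
    refine ⟨i, ?_, rfl⟩
    rw [Finset.mem_coe, Finset.mem_range]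
    rw [pow_succ] at hv
    exact lt_of_mul_lt_mul_left hv (Nat.zero_le _)
  calc _ ≤ _ := Set.ncard_le_ncard hsub (Set.toFinite _)
    _ ≤ (↑(Finset.range 3) : Set ℕ).ncard := Set.ncard_image_le (Finset.finite_toSet _)
    _ = 3 := by rw [Set.ncard_coe_finset, Finset.card_range]

theorem case2 [Fact p.Prime] (hn : 1 ≤ n) {k A : ℕ} (hA : ¬ p ∣ A) (w : ZMod (p ^ n)) :
    {x ∈ S k A (p ^ n) | x.2 = w}.ncard ≤ 3 := by
  by_cases hw : red hn w = 0
  · have : {x ∈ S k A (p ^ n) | x.2 = w} = ∅ := by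
      rw [Set.eq_empty_iff_forall_notMem]
      rintro x ⟨hx, rfl⟩
      exact (facts hn hA hx).2.2.2.1 hw
    rw [this, Set.ncard_empty]
    omega
  by_cases hp3 : p = 3
  · subst hp3
    -- all the points have the same first coordinate modulo `3`
    rcases Set.eq_empty_or_nonempty {x ∈ S k A (3 ^ n) | x.2 = w} with h | ⟨x0, hx0, hx0w⟩
    · rw [h, Set.ncard_empty]; omega
    have hred3 := hred3'
    have hcube := hcube'
    have hval : ∀ x ∈ {x ∈ S k A (3 ^ n) | x.2 = w}, red hn x.1 * red hn w = A := by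
      rintro x ⟨hx, hxw⟩
      have h1 := (facts hn hA hx).1
      rw [hxw] at h1
      have h2 := hcube (red hn x.1)
      rw [← h1]
      linear_combination -(red hn w) * h2 +
        (3 * (k : ZMod 3) ^ 2 * red hn w ^ 3 * red hn x.1) * hred3
    have himg : (fun x : ZMod (3 ^ n) × ZMod (3 ^ n) => x.1 - x0.1) ''
        {x ∈ S k A (3 ^ n) | x.2 = w} ⊆ {u : ZMod (3 ^ n) | 3 * u = 0} := by
      rintro _ ⟨x, ⟨hx, hxw⟩, rfl⟩
      have e1 := (hval x ⟨hx, hxw⟩).trans (hval x0 ⟨hx0, hx0w⟩).symm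
      have e2 : red hn x.1 = red hn x0.1 := mul_right_cancel₀ hw e1
      -- the difference is divisible by three
      have e3 : ∃ g : ZMod (3 ^ n), x.1 - x0.1 = 3 * g := by
        have : NeZero (3 ^ n) := ⟨by positivity⟩
        obtain ⟨v, hv⟩ := ZMod.natCast_zmod_surjective (x.1 - x0.1)
        have h4 : red hn (x.1 - x0.1) = 0 := by rw [map_sub, e2, sub_self]
        rw [← hv, map_natCast, ZMod.natCast_eq_zero_iff] at h4
        obtain ⟨g, rfl⟩ := h4
        refine ⟨(g : ZMod (3 ^ n)), ?_⟩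
        rw [← hv]
        push_cast
        ring
      obtain ⟨g, hg⟩ := e3
      have hx1 : x.1 = x0.1 + 3 * g := by rw [← hg]; ring
      have e4 : F (k : ZMod (3 ^ n)) x.1 x.2 = F (k : ZMod (3 ^ n)) x0.1 x0.2 :=
        hx.1.trans hx0.1.symm
      unfold F at e4
      rw [hxw, hx0w] at e4
      have hf := facts hn hA hx0
      have hu : IsUnit (w * (x0.1 ^ 2 + 3 * x0.1 * g + 3 * g ^ 2 -
          3 * (k : ZMod (3 ^ n)) ^ 2 * w ^ 2)) := by
        rw [isUnit_iff_red hn]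
        simp only [map_mul, map_add, map_sub, map_pow, map_natCast, map_ofNat]
        apply mul_ne_zero hw
        intro h0
        apply hf.2.2.2.2.2.1
        rw [hx0w]
        linear_combination h0 - (red hn x0.1 * red hn g + red hn g ^ 2) * hred3
      refine eq_of_unit_mul hu ?_
      rw [hx1] at e4
      simp only [hx1]
      linear_combination e4
    have hinj : Set.InjOn (fun x : ZMod (3 ^ n) × ZMod (3 ^ n) => x.1 - x0.1)
        {x ∈ S k A (3 ^ n) | x.2 = w} := by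
      rintro x ⟨hx, hxw⟩ y ⟨hy, hyw⟩ hxy
      exact Prod.ext (sub_left_injective hxy) (hxw.trans hyw.symm)
    rw [← hinj.ncard_image]
    have : NeZero (3 ^ n) := ⟨by positivity⟩
    exact (Set.ncard_le_ncard himg (Set.toFinite _)).trans (three_tors hn)
  · have h3 : (3 : ZMod p) ≠ 0 := by
      intro h
      have : ((3 : ℕ) : ZMod p) = 0 := by exact_mod_cast h
      rw [ZMod.natCast_eq_zero_iff] at this
      exact hp3 ((Nat.prime_dvd_prime_iff_eq Fact.out Nat.prime_three).1 this)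
    apply card_le _ (fun x => red hn x.1) (red hn w) 0 (-9 * (k : ZMod p) ^ 2 * red hn w ^ 3)
      (-(A : ZMod p)) (Or.inl hw)
    · rintro x ⟨hx, rfl⟩
      have h1 := (facts hn hA hx).1
      linear_combination h1
    · rintro x ⟨hx, hxw⟩ y ⟨hy, hyw⟩ hxy
      simp only at hxy
      have hf := facts hn hA hx
      have e1 : F (k : ZMod (p ^ n)) x.1 x.2 = F (k : ZMod (p ^ n)) y.1 y.2 :=
        hx.1.trans hy.1.symm
      unfold F at e1
      rw [hxw, hyw] at e1
      have hu : IsUnit (w * (x.1 ^ 2 + x.1 * y.1 + y.1 ^ 2 -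
          9 * (k : ZMod (p ^ n)) ^ 2 * w ^ 2)) := by
        rw [isUnit_iff_red hn]
        simp only [map_mul, map_sub, map_add, map_pow, map_natCast, map_ofNat]
        apply mul_ne_zero hw
        rw [← hxy]
        intro h0
        apply mul_ne_zero h3 hf.2.2.2.2.2.1
        rw [hxw]
        linear_combination h0
      have h4 := eq_of_unit_mul (d := x.1 - y.1) hu (by linear_combination e1)
      exact Prod.ext (sub_eq_zero.1 h4) (hxw.trans hyw.symm)

end

theorem t : S_FIBP := by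
  intro k A p n hp hA w
  have : Fact p.Prime := ⟨hp⟩
  rcases Nat.eq_zero_or_pos n with rfl | hn
  · have hs : Subsingleton (ZMod (p ^ 0)) := by rw [pow_zero]; infer_instance
    have h : ∀ Z : Set (ZMod (p ^ 0) × ZMod (p ^ 0)), Z.ncard ≤ 3 := by
      intro Z
      have := Set.ncard_le_one_of_subsingleton Z
      omega
    exact ⟨h _, h _, h _, h _⟩
  · exact ⟨case1 hn hA w, case2 hn hA w, case3 hn hA w, case4 hn hA w⟩

end Pool.Agent.Y514.LN
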